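import Pool.Agent.Lib.MP_e888d6_gt.Example

open scoped ContDiff

namespace Pool.Agent.Results.MP_e888d6_gt.Counterexample

open Pool.Agent.Lib.MP_e888d6_gt

/-- In the standard symplectic R^6 = C^3 there is a closed connected 4-dimensional submanifold
K (a compact regular level set of a smooth map to R^2) with a nowhere vanishing normal section,
which is not coisotropic, and all of whose Hamiltonian packings are countable. -/
theorem result :
    ∃ F : (Fin 3 → ℂ) → ℝ × ℝ, ContDiff ℝ ∞ F ∧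
      IsCompact (F ⁻¹' {0}) ∧ IsConnected (F ⁻¹' {0}) ∧
      (∀ x ∈ F ⁻¹' {0}, Function.Surjective (fderiv ℝ F x)) ∧
      (∃ ν : (Fin 3 → ℂ) → (Fin 3 → ℂ), ContDiff ℝ ∞ ν ∧
        ∀ x ∈ F ⁻¹' {0}, fderiv ℝ F x (ν x) ≠ 0) ∧
      (∃ x ∈ F ⁻¹' {0}, ∃ v, (∀ w, fderiv ℝ F x w = 0 → om v w = 0) ∧ fderiv ℝ F x v ≠ 0) ∧
      ∀ P : Set (Set (Fin 3 → ℂ)), (∀ A ∈ P, ∃ φ, IsHam φ ∧ A = φ '' (F ⁻¹' {0})) →
        P.PairwiseDisjoint id → P.Countable :=
  ⟨FF, contDiff_FF, isCompact_level, isConnected_level, fun _ hx => surj hx,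
    ⟨nu, contDiff_nu, fun _ hx => by rw [fderiv_nu hx]; simp⟩, not_coiso, packing_countable⟩

end Pool.Agent.Results.MP_e888d6_gt.Counterexample
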